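import Mathlib
import Pool.Agent.H12.CubeF

open Finset

namespace Pool.Agent.Results.MP_c88ce3_co.Lower

/-- the hypercube graph: 0/1 vectors, adjacent when they differ in exactly one coordinate -/
def Q (d : ℕ) : SimpleGraph (Fin d → ZMod 2) where
  Adj x y := hammingDist x y = 1
  symm := ⟨fun x y h => by rw [hammingDist_comm]; exact h⟩
  loopless := ⟨fun x h => by simp at h⟩

/-- `M 0, ..., M (d-1)` are perfect matchings of the cube partitioning its edge set -/
def IsOneFactorization (d : ℕ) (M : Fin d → SimpleGraph (Fin d → ZMod 2)) : Prop :=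
  (∀ i, M i ≤ Q d) ∧ (∀ i x, ∃! y, (M i).Adj x y) ∧
    ∀ x y, (Q d).Adj x y → ∃! i, (M i).Adj x y

/-- `H` contains a cycle of length `m`: distinct vertices `g 0, ..., g (m-1)`, consecutive ones
adjacent, the last adjacent to the first -/
def HasCycle {V : Type*} (H : SimpleGraph V) (m : ℕ) : Prop :=
  3 ≤ m ∧ ∃ g : ℕ → V, (∀ s t, s < m → t < m → g s = g t → s = t) ∧
    (∀ t, t + 1 < m → H.Adj (g t) (g (t + 1))) ∧ H.Adj (g (m - 1)) (g 0)

open H12Cube

lemma adj_iff {d : ℕ} (x y : Fin d → ZMod 2) : (Q d).Adj x y ↔ ∃ l, y = x + e l := by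
  have two : ∀ a b : ZMod 2, a ≠ b → b = a + 1 := by decide
  show hammingDist x y = 1 ↔ _
  unfold hammingDist
  rw [card_eq_one]
  constructor
  · rintro ⟨l, hl⟩
    refine ⟨l, funext fun k => ?_⟩
    have hk : k ∈ filter (fun i => x i ≠ y i) univ ↔ k = l := by rw [hl]; simp
    simp only [mem_filter, mem_univ, true_and] at hk
    by_cases h : k = l
    · subst h
      rw [two _ _ (hk.2 rfl)]; simp [e]
    · rw [e_ne x h]
      by_contra hh
      exact h (hk.1 fun h2 => hh h2.symm)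
  · rintro ⟨l, rfl⟩
    refine ⟨l, ?_⟩
    ext k
    simp only [mem_filter, mem_univ, true_and, mem_singleton]
    constructor
    · intro h
      by_contra hk
      exact h (e_ne x hk).symm
    · rintro rfl
      exact (e_self x k).symm

lemma e_inj {d : ℕ} (x : Fin d → ZMod 2) {k l : Fin d} (h : x + e k = x + e l) : k = l := by
  by_contra hkl
  have := congrFun h k
  rw [e_ne x hkl] at this
  exact e_self x k this

lemma of_col {d : ℕ} (col : (Fin d → ZMod 2) → Equiv.Perm (Fin d))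
    (hb : ∀ x k, col (x + e k) k = col x k) :
    ∃ M, IsOneFactorization d M ∧ ∀ i j x y, R col i j x y → (M i ⊔ M j).Adj x y := by
  let M : Fin d → SimpleGraph (Fin d → ZMod 2) := fun i =>
    { Adj := fun x y => ∃ l, y = x + e l ∧ col x l = i
      symm := ⟨by
        rintro x y ⟨l, rfl, h⟩
        exact ⟨l, (e_add_e x l).symm, by rw [hb]; exact h⟩⟩
      loopless := ⟨by
        rintro x ⟨l, h, -⟩
        exact e_self x l (congrFun h l).symm⟩ }
  refine ⟨M, ⟨?_, ?_, ?_⟩, ?_⟩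
  · rintro i x y ⟨l, h, -⟩
    exact (adj_iff x y).2 ⟨l, h⟩
  · intro i x
    refine ⟨x + e ((col x).symm i), ⟨_, rfl, by simp⟩, ?_⟩
    rintro y ⟨l, rfl, h⟩
    rw [← h]; simp
  · intro x y h
    obtain ⟨l, rfl⟩ := (adj_iff x y).1 h
    refine ⟨col x l, ⟨l, rfl, rfl⟩, ?_⟩
    rintro i ⟨l', h1, h2⟩
    rw [e_inj x h1, h2]
  · rintro i j x y ⟨l, h1, h2 | h2⟩
    · exact Or.inl ⟨l, h1, h2⟩
    · exact Or.inr ⟨l, h1, h2⟩

theorem result : ∀ d : ℕ, 2 ≤ d → ∃ M : Fin d → SimpleGraph (Fin d → ZMod 2),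
    IsOneFactorization d M ∧
      ∀ i j, i ≠ j → ∃ m, 2 ^ d ≤ 32 * d ^ 10 * m ∧ HasCycle (M i ⊔ M j) m := by
  classical
  intro d hd
  obtain ⟨t, ht1, ht2⟩ : ∃ t, d * d ≤ 2 ^ t ∧ 2 ^ t ≤ 2 * (d * d) := by
    refine ⟨Nat.clog 2 (d * d), Nat.le_pow_clog (by norm_num) _, ?_⟩
    have h1 : 1 < d * d := by nlinarith
    have h2 := Nat.pow_pred_clog_lt_self (b := 2) (by norm_num) h1
    have h3 : 0 < Nat.clog 2 (d * d) := Nat.clog_pos (by norm_num) h1
    obtain ⟨c, hc⟩ : ∃ c, Nat.clog 2 (d * d) = c + 1 := ⟨_, (Nat.succ_pred_eq_of_pos h3).symm⟩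
    rw [hc] at h2 ⊢
    simp only [Nat.pred_eq_sub_one, Nat.add_sub_cancel] at h2
    rw [pow_succ]
    omega
  have ht5 : 2 ^ (5 * t) ≤ 32 * d ^ 10 := by
    calc 2 ^ (5 * t) = (2 ^ t) ^ 5 := by rw [← pow_mul, mul_comm]
      _ ≤ (2 * (d * d)) ^ 5 := Nat.pow_le_pow_left ht2 5
      _ = 32 * d ^ 10 := by ring
  by_cases h5 : 5 * t ≤ d
  · obtain ⟨c⟩ : Nonempty (Fin d × Fin d ↪ (Fin t → ZMod 2)) :=
      Function.Embedding.nonempty_of_card_le (by simpa using ht1)
    obtain ⟨φ⟩ : Nonempty (Fin 5 × Fin t ↪ Fin d) :=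
      Function.Embedding.nonempty_of_card_le (by simpa using h5)
    let S : Finset (Fin d) := (univ.map φ)ᶜ
    have hS : S.card = d - 5 * t := by simp [S, card_compl]
    let w : Fin d × Fin d → Fin d → ZMod 2 := fun p k =>
      if h : ∃ a, φ a = k then c p h.choose.2 else 0
    have hw : ∀ p a, w p (φ a) = c p a.2 := by
      intro p a
      have h : ∃ a', φ a' = φ a := ⟨a, rfl⟩
      simp only [w, dif_pos h]
      rw [φ.injective h.choose_spec]
    obtain ⟨col, hb, hcyc⟩ := glue S w (by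
      intro p q hpq
      obtain ⟨b, hb⟩ := Function.ne_iff.1 (c.injective.ne hpq)
      have hlt : ({p.1, p.2, q.1, q.2} : Finset (Fin d)).card <
          (univ.image fun a : Fin 5 => φ (a, b)).card := by
        rw [card_image_of_injective _ (fun a a' h => by simpa using φ.injective h)]
        have := card_le_four (a := p.1) (b := p.2) (c := q.1) (d := q.2)
        simp only [card_univ, Fintype.card_fin]
        omega
      obtain ⟨k, hk1, hk2⟩ := exists_mem_notMem_of_card_lt_card hlt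
      obtain ⟨a, -, rfl⟩ := mem_image.1 hk1
      simp only [mem_insert, mem_singleton, not_or] at hk2
      refine ⟨φ (a, b), ?_, ?_, ?_⟩
      · simp [S, hk2.1, hk2.2.1]
      · simp [S, hk2.2.2.1, hk2.2.2.2]
      · rw [hw, hw]; exact hb)
    obtain ⟨M, hM, hR⟩ := of_col col hb
    refine ⟨M, hM, fun i j hij => ?_⟩
    obtain ⟨m, g, h1, h2, h3, h4, h6⟩ := hcyc i j hij
    refine ⟨m, ?_, by omega, g, h6, fun t ht => hR _ _ _ _ (h3 t ht), hR _ _ _ _ h4⟩
    rw [hS] at h1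
    calc 2 ^ d = 2 ^ (5 * t) * 2 ^ (d - 5 * t) := by rw [← pow_add]; congr 1; omega
      _ ≤ 32 * d ^ 10 * m := Nat.mul_le_mul ht5 h1
  · obtain ⟨M, hM, hR⟩ := of_col (d := d) (fun _ => 1) (fun _ _ => rfl)
    refine ⟨M, hM, fun i j hij => ?_⟩
    have hb := base hij
    refine ⟨4, ?_, by norm_num, g0 i j, fun s t hs ht h => hb.hi s t hs ht fun k _ => by rw [h],
      fun t ht => hR _ _ _ _ (hb.hp t ht), hR _ _ _ _ hb.hl⟩
    have : 2 ^ d ≤ 2 ^ (5 * t) := Nat.pow_le_pow_right (by norm_num) (by omega)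
    omega

end Pool.Agent.Results.MP_c88ce3_co.Lower
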